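import Mathlib

/-! The faces of the diagrams `Δ_n` of the Heisenberg group, with the numbers of edges shared by two
faces and of boundary edges of a face. The bottom `μ n` of the spectrum of the face-dual Laplacian,
normalised by the sum of the squares, is at most `C / (n² log n)`. -/

set_option linter.unusedSectionVars false
set_option linter.dupNamespace false

namespace Pool.Agent.Results.MP_442c46_al.LogarithmicGap

open Filter Topology

/-- The faces of `Δ_n`. The face `(r, i, 0)` is the face number `i` of the strip number `r` of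
`A_n`, the face `(r, i, n + 1)` is the face number `i` of the strip number `r` of `B_n`, and for
`1 ≤ k ≤ n` the face `(r, i, k)` is the square of `C_n` in column `k` and row `r * n + i`.
Here strips, faces in a strip and rows are numbered from `0`. -/
abbrev Face (n : ℕ) : Type := Fin n × Fin n × Fin (n + 2)

/-- the number of the row of `C_n` to which the face belongs, or is glued -/
def row {n : ℕ} (f : Face n) : ℕ := f.1 * n + f.2.1

/-- the column -/
def col {n : ℕ} (f : Face n) : ℕ := f.2.2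

/-- the face belongs to `A_n` or to `B_n` -/
def InAB {n : ℕ} (f : Face n) : Prop := col f = 0 ∨ col f = n + 1

/-- `a` and `b` are consecutive natural numbers -/
def Next (a b : ℕ) : Prop := a + 1 = b ∨ b + 1 = a

/-- the faces share an edge labelled `z`: they are consecutive in one row -/
def ShareZ {n : ℕ} (f f' : Face n) : Prop := f.1 = f'.1 ∧ f.2.1 = f'.2.1 ∧ Next (col f) (col f')

/-- the faces are squares of one column of `C_n` in consecutive rows, and share an edge labelled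
`x` -/
def ShareXC {n : ℕ} (f f' : Face n) : Prop :=
  ¬ InAB f ∧ f.2.2 = f'.2.2 ∧ Next (row f) (row f')

/-- the faces are consecutive faces of one strip of `A_n` or `B_n`, and share an edge labelled `y` -/
def ShareY {n : ℕ} (f f' : Face n) : Prop :=
  InAB f ∧ f.2.2 = f'.2.2 ∧ f.1 = f'.1 ∧ Next f.2.1 f'.2.1

/-- the faces are faces of `A_n` or `B_n` with the same number in two consecutive strips, and share
an edge labelled `x` -/
def ShareX {n : ℕ} (f f' : Face n) : Prop :=
  InAB f ∧ f.2.2 = f'.2.2 ∧ f.2.1 = f'.2.1 ∧ Next f.1 f'.1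

open Classical in
/-- the number of edges shared by two faces -/
noncomputable def m {n : ℕ} (f f' : Face n) : ℝ :=
  (if ShareZ f f' then 1 else 0) + (if ShareXC f f' then 1 else 0) +
    (if ShareY f f' then 1 else 0) + (if ShareX f f' then 1 else 0)

open Classical in
/-- The number of edges of a face on the boundary of `Δ_n`. In `A_n` and `B_n` these are the edges
labelled `y` at the two ends of the strips, and the edges labelled `x` on the outer sides of the
first and of the last strip. In `C_n` these are the edges labelled `x` in the first and in the last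
row. -/
noncomputable def b {n : ℕ} (f : Face n) : ℝ :=
  if InAB f then
    (if (f.2.1 : ℕ) = 0 then 1 else 0) + (if (f.2.1 : ℕ) + 1 = n then 1 else 0) +
      (if (f.1 : ℕ) = 0 then 1 else 0) + (if (f.1 : ℕ) + 1 = n then 1 else 0)
  else (if row f = 0 then 1 else 0) + (if row f + 1 = n * n then 1 else 0)

/-- the energy of a function; unordered pairs of faces are counted as half of the ordered pairs -/
noncomputable def energy {n : ℕ} (g : Face n → ℝ) : ℝ :=
  (∑ f, ∑ f', m f f' * (g f - g f') ^ 2) / 2 + ∑ f, b f * g f ^ 2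

/-- the infimum of the energy divided by the sum of the squares -/
noncomputable def mu (n : ℕ) : ℝ :=
  sInf {x : ℝ | ∃ g : Face n → ℝ, g ≠ 0 ∧ x = energy g / ∑ f, g f ^ 2}

/-! ### the test function -/

/-- the distance to the ends of a strip -/
def t (n i : ℕ) : ℕ := min (i + 1) (n - i)

/-- the distance to `A_n` and `B_n` -/
def e (n k : ℕ) : ℕ := min k (n + 1 - k)

/-- the test function -/
noncomputable def tf (n : ℕ) (f : Face n) : ℝ :=
  (t n f.1 : ℝ) * Real.log ((t n f.2.1 + e n (col f) : ℕ) : ℝ)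

lemma t_pos {n i : ℕ} (h : i < n) : 1 ≤ t n i := by
  unfold t; omega

lemma s_le {n i k : ℕ} (h : i < n) (hk : k < n + 2) : t n i + e n k ≤ n + 1 := by
  unfold t e; omega

lemma t_next {n i j : ℕ} (h : Next i j) (hi : i < n) (hj : j < n) : t n i ≤ t n j + 1 ∧ t n j ≤ t n i + 1 := by
  unfold t; unfold Next at h; omega

lemma e_next {n i j : ℕ} (h : Next i j) (hi : i < n + 2) (hj : j < n + 2) :
    e n i ≤ e n j + 1 ∧ e n j ≤ e n i + 1 := by
  unfold e; unfold Next at h; omega

lemma log_diff {a c : ℕ} (ha : 1 ≤ a) (hc : 1 ≤ c) (h1 : a ≤ c + 1) (h2 : c ≤ a + 1) :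
    (Real.log a - Real.log c) ^ 2 ≤ 4 / (a : ℝ) ^ 2 := by
  have key : ∀ x y : ℕ, 1 ≤ x → x ≤ y → y ≤ x + 1 → |Real.log x - Real.log y| ≤ 1 / (x : ℝ) := by
    intro x y hx hxy hyx
    have hx0 : (0 : ℝ) < x := by exact_mod_cast hx
    have hy0 : (0 : ℝ) < y := by exact_mod_cast (by omega : 0 < y)
    have h3 : Real.log x ≤ Real.log y := Real.log_le_log hx0 (by exact_mod_cast hxy)
    rw [abs_of_nonpos (by linarith), neg_sub, ← Real.log_div hy0.ne' hx0.ne']
    have h4 := Real.log_le_sub_one_of_pos (div_pos hy0 hx0)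
    have h5 : (y : ℝ) / x - 1 ≤ 1 / x := by
      rw [div_sub_one hx0.ne', div_le_div_iff_of_pos_right hx0]
      have : (y : ℝ) ≤ x + 1 := by exact_mod_cast hyx
      linarith
    linarith
  have ha0 : (0 : ℝ) < a := by exact_mod_cast ha
  have hc0 : (0 : ℝ) < c := by exact_mod_cast hc
  have h3 : |Real.log a - Real.log c| ≤ 2 / (a : ℝ) := by
    rcases le_total a c with h | h
    · refine (key a c ha h h2).trans ?_
      gcongr
      norm_num
    · rw [abs_sub_comm]
      refine (key c a hc h h1).trans ?_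
      rw [div_le_div_iff₀ hc0 ha0]
      have : (a : ℝ) ≤ c + 1 := by exact_mod_cast h1
      have : (1 : ℝ) ≤ c := by exact_mod_cast hc
      linarith
  calc (Real.log a - Real.log c) ^ 2 = |Real.log a - Real.log c| ^ 2 := (sq_abs _).symm
    _ ≤ (2 / (a : ℝ)) ^ 2 := by gcongr
    _ = 4 / (a : ℝ) ^ 2 := by rw [div_pow]; norm_num

open Classical in
lemma sum_le_two {α : Type} [Fintype α] (P : α → Prop) (φ : α → ℕ) (v : ℕ)
    (hinj : ∀ a a', P a → P a' → φ a = φ a' → a = a') (hv : ∀ a, P a → Next v (φ a))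
    (F : α → ℝ) (B : ℝ) (hB : 0 ≤ B) (hF : ∀ a, P a → F a ≤ B) :
    ∑ a, (if P a then (1 : ℝ) else 0) * F a ≤ 2 * B := by
  have h1 : ∑ a, (if P a then (1 : ℝ) else 0) * F a = ∑ a ∈ Finset.univ.filter P, F a := by
    rw [Finset.sum_filter]
    refine Finset.sum_congr rfl fun a _ => ?_
    split_ifs <;> simp
  have h2 : (Finset.univ.filter P).card ≤ 2 := by
    have h3 : ((Finset.univ.filter P).image φ).card = (Finset.univ.filter P).card := by
      apply Finset.card_image_of_injOn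
      intro a ha a' ha' h
      exact hinj a a' (by simpa using ha) (by simpa using ha') h
    rw [← h3]
    refine (Finset.card_le_card (t := {v - 1, v + 1}) ?_).trans Finset.card_le_two
    intro x hx
    obtain ⟨a, ha, rfl⟩ := Finset.mem_image.mp hx
    have h4 := hv a (by simpa using ha)
    unfold Next at h4
    rw [Finset.mem_insert, Finset.mem_singleton]
    omega
  rw [h1]
  calc ∑ a ∈ Finset.univ.filter P, F a ≤ ∑ a ∈ Finset.univ.filter P, B :=
        Finset.sum_le_sum fun a ha => hF a (by simpa using ha)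
    _ = (Finset.univ.filter P).card * B := by rw [Finset.sum_const, nsmul_eq_mul]
    _ ≤ 2 * B := by
        gcongr
        exact_mod_cast h2

section local_bounds

variable {n : ℕ}

/-- the argument of the logarithm -/
def sv (n : ℕ) (f : Face n) : ℕ := t n f.2.1 + e n (col f)

lemma sv_pos (f : Face n) : 1 ≤ sv n f := (t_pos f.2.1.2).trans (Nat.le_add_right _ _)

lemma sv_le (f : Face n) : sv n f ≤ n + 1 := s_le f.2.1.2 f.2.2.2

lemma log_sv_nonneg (f : Face n) : 0 ≤ Real.log (sv n f : ℝ) :=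
  Real.log_nonneg (by exact_mod_cast sv_pos f)

lemma log_sv_le (f : Face n) : Real.log (sv n f : ℝ) ≤ Real.log ((n : ℝ) + 1) :=
  Real.log_le_log (by exact_mod_cast sv_pos f) (by exact_mod_cast sv_le f)

lemma log_sv_sq (f : Face n) : Real.log (sv n f : ℝ) ^ 2 ≤ Real.log ((n : ℝ) + 1) ^ 2 := by
  have := log_sv_nonneg f
  have := log_sv_le f
  gcongr

lemma tf_eq (f : Face n) : tf n f = (t n f.1 : ℝ) * Real.log (sv n f : ℝ) := rfl

/-- the bound for steps within a block -/
noncomputable def D (f : Face n) : ℝ := (t n f.1 : ℝ) ^ 2 * (4 / (sv n f : ℝ) ^ 2)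

lemma D_nonneg (f : Face n) : 0 ≤ D f := by unfold D; positivity

/-- the square of the logarithm -/
noncomputable def Lg (n : ℕ) : ℝ := Real.log ((n : ℝ) + 1) ^ 2

lemma Lg_nonneg : 0 ≤ Lg n := sq_nonneg _

lemma step_in {f f' : Face n} (h1 : t n f.1 = t n f'.1) (h2 : sv n f ≤ sv n f' + 1)
    (h3 : sv n f' ≤ sv n f + 1) : (tf n f - tf n f') ^ 2 ≤ D f := by
  rw [tf_eq, tf_eq, ← h1, ← mul_sub, mul_pow]
  unfold D
  gcongr
  exact log_diff (sv_pos f) (sv_pos f') h2 h3

lemma step_out {f f' : Face n} (h1 : t n f.1 ≤ t n f'.1 + 1) (h2 : t n f'.1 ≤ t n f.1 + 1)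
    (h3 : sv n f = sv n f') : (tf n f - tf n f') ^ 2 ≤ Lg n := by
  rw [tf_eq, tf_eq, ← h3, ← sub_mul, mul_pow]
  have h4 : ((t n f.1 : ℝ) - (t n f'.1 : ℝ)) ^ 2 ≤ 1 := by
    have h5 : (t n f.1 : ℝ) ≤ (t n f'.1 : ℝ) + 1 := by exact_mod_cast h1
    have h6 : (t n f'.1 : ℝ) ≤ (t n f.1 : ℝ) + 1 := by exact_mod_cast h2
    nlinarith
  calc _ ≤ 1 * Real.log (sv n f : ℝ) ^ 2 := by gcongr
    _ ≤ Lg n := by rw [one_mul]; exact log_sv_sq f

lemma row_inj {r i r' i' : Fin n} (h : (r : ℕ) * n + i = r' * n + i') : r = r' ∧ i = i' := by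
  have hn : 0 < n := r.pos
  have h1 : ((r : ℕ) * n + i) / n = r := by
    rw [mul_comm, Nat.mul_add_div hn, Nat.div_eq_of_lt i.2, add_zero]
  have h2 : ((r' : ℕ) * n + i') / n = r' := by
    rw [mul_comm, Nat.mul_add_div hn, Nat.div_eq_of_lt i'.2, add_zero]
  have h3 : (r : ℕ) = r' := by rw [← h1, ← h2, h]
  refine ⟨Fin.ext h3, Fin.ext ?_⟩
  rw [h3] at h
  omega

open Classical in
lemma boundZ (f : Face n) :
    ∑ f', (if ShareZ f f' then (1 : ℝ) else 0) * (tf n f - tf n f') ^ 2 ≤ 2 * D f := by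
  refine sum_le_two (fun f' => ShareZ f f') col (col f) ?_ (fun f' h => h.2.2) _ _ (D_nonneg f) ?_
  · rintro a a' ⟨h1, h2, _⟩ ⟨h3, h4, _⟩ h
    exact Prod.ext (h1.symm.trans h3) (Prod.ext (h2.symm.trans h4) (Fin.ext h))
  · rintro a ⟨h1, h2, h3⟩
    have h4 := e_next h3 f.2.2.2 a.2.2.2
    refine step_in (by rw [h1]) ?_ ?_
    · unfold sv
      rw [h2]
      omega
    · unfold sv
      rw [h2]
      omega

open Classical in
lemma boundY (f : Face n) :
    ∑ f', (if ShareY f f' then (1 : ℝ) else 0) * (tf n f - tf n f') ^ 2 ≤ 2 * D f := by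
  refine sum_le_two (fun f' => ShareY f f') (fun f' => (f'.2.1 : ℕ)) f.2.1 ?_
    (fun f' h => h.2.2.2) _ _ (D_nonneg f) ?_
  · rintro a a' ⟨_, h1, h2, _⟩ ⟨_, h3, h4, _⟩ h
    exact Prod.ext (h2.symm.trans h4) (Prod.ext (Fin.ext h) (h1.symm.trans h3))
  · rintro a ⟨_, h1, h2, h3⟩
    have h4 := t_next h3 f.2.1.2 a.2.1.2
    have h5 : col a = col f := by unfold col; rw [h1]
    refine step_in (by rw [h2]) ?_ ?_
    · unfold sv
      rw [h5]
      omega
    · unfold sv
      rw [h5]
      omega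

open Classical in
lemma boundX (f : Face n) :
    ∑ f', (if ShareX f f' then (1 : ℝ) else 0) * (tf n f - tf n f') ^ 2 ≤
      2 * (if InAB f then Lg n else 0) := by
  refine sum_le_two (fun f' => ShareX f f') (fun f' => (f'.1 : ℕ)) f.1 ?_
    (fun f' h => h.2.2.2) _ _ (by split_ifs <;> simp [Lg_nonneg]) ?_
  · rintro a a' ⟨_, h1, h2, _⟩ ⟨_, h3, h4, _⟩ h
    exact Prod.ext (Fin.ext h) (Prod.ext (h2.symm.trans h4) (h1.symm.trans h3))
  · rintro a ⟨h0, h1, h2, h3⟩
    rw [if_pos h0]
    have h4 := t_next h3 f.1.2 a.1.2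
    have h5 : col a = col f := by unfold col; rw [h1]
    refine step_out h4.1 h4.2 ?_
    unfold sv
    rw [h5, h2]

/-- the face lies in the first or last row of a block -/
def IsEnd (f : Face n) : Prop := (f.2.1 : ℕ) = 0 ∨ (f.2.1 : ℕ) + 1 = n

open Classical in
lemma boundXC (f : Face n) :
    ∑ f', (if ShareXC f f' then (1 : ℝ) else 0) * (tf n f - tf n f') ^ 2 ≤
      2 * (D f + if IsEnd f then Lg n else 0) := by
  have hD := D_nonneg f
  have hL : 0 ≤ (if IsEnd f then Lg n else 0) := by split_ifs <;> simp [Lg_nonneg]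
  refine sum_le_two (fun f' => ShareXC f f') row (row f) ?_
    (fun f' h => h.2.2) _ _ (by linarith) ?_
  · rintro a a' ⟨_, h1, _⟩ ⟨_, h3, _⟩ h
    obtain ⟨h5, h6⟩ := row_inj h
    exact Prod.ext h5 (Prod.ext h6 (h1.symm.trans h3))
  · rintro a ⟨h0, h1, h2⟩
    have h5 : col a = col f := by unfold col; rw [h1]
    by_cases hr : f.1 = a.1
    · have h3 : Next f.2.1 a.2.1 := by
        unfold Next row at h2
        rw [hr] at h2
        unfold Next
        omega
      have h4 := t_next h3 f.2.1.2 a.2.1.2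
      have h6 : (tf n f - tf n a) ^ 2 ≤ D f := by
        refine step_in (by rw [hr]) ?_ ?_
        · unfold sv
          rw [h5]
          omega
        · unfold sv
          rw [h5]
          omega
      linarith
    · -- the rows belong to different blocks
      have hlt : ∀ x y : Fin n, (x : ℕ) < y → (x : ℕ) * n + n ≤ y * n := by
        intro x y hxy
        calc (x : ℕ) * n + n = (x + 1) * n := by ring
          _ ≤ y * n := Nat.mul_le_mul_right _ hxy
      have hi := f.2.1.2
      have hi' := a.2.1.2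
      have hne : (f.1 : ℕ) ≠ a.1 := fun h => hr (Fin.ext h)
      unfold Next row at h2
      have key : Next f.1 a.1 ∧ IsEnd f ∧ t n f.2.1 = t n a.2.1 := by
        rcases Nat.lt_or_gt_of_ne hne with h | h
        · have h6 := hlt _ _ h
          have h7 : (f.2.1 : ℕ) + 1 = n ∧ (a.2.1 : ℕ) = 0 ∧ (a.1 : ℕ) * n = f.1 * n + n := by
            omega
          have h8 : (a.1 : ℕ) = f.1 + 1 := by
            have h9 : (a.1 : ℕ) * n = (f.1 + 1) * n := by rw [h7.2.2]; ring
            exact Nat.eq_of_mul_eq_mul_right (by omega) h9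
          refine ⟨Or.inl h8.symm, Or.inr h7.1, ?_⟩
          unfold t
          omega
        · have h6 := hlt _ _ h
          have h7 : (a.2.1 : ℕ) + 1 = n ∧ (f.2.1 : ℕ) = 0 ∧ (f.1 : ℕ) * n = a.1 * n + n := by
            omega
          have h8 : (f.1 : ℕ) = a.1 + 1 := by
            have h9 : (f.1 : ℕ) * n = (a.1 + 1) * n := by rw [h7.2.2]; ring
            exact Nat.eq_of_mul_eq_mul_right (by omega) h9
          refine ⟨Or.inr h8.symm, Or.inl h7.2.1, ?_⟩
          unfold t
          omega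
      obtain ⟨k1, k2, k3⟩ := key
      have h4 := t_next k1 f.1.2 a.1.2
      have h6 : (tf n f - tf n a) ^ 2 ≤ Lg n := by
        refine step_out h4.1 h4.2 ?_
        unfold sv
        rw [h5, k3]
      rw [if_pos k2]
      linarith

open Classical in
lemma local_sum (f : Face n) :
    ∑ f', m f f' * (tf n f - tf n f') ^ 2 ≤
      6 * D f + 2 * (if IsEnd f then Lg n else 0) + 2 * (if InAB f then Lg n else 0) := by
  have h1 := boundZ f
  have h2 := boundY f
  have h3 := boundX f
  have h4 := boundXC f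
  have h5 : ∑ f', m f f' * (tf n f - tf n f') ^ 2 =
      ∑ f', (if ShareZ f f' then (1 : ℝ) else 0) * (tf n f - tf n f') ^ 2 +
      ∑ f', (if ShareXC f f' then (1 : ℝ) else 0) * (tf n f - tf n f') ^ 2 +
      ∑ f', (if ShareY f f' then (1 : ℝ) else 0) * (tf n f - tf n f') ^ 2 +
      ∑ f', (if ShareX f f' then (1 : ℝ) else 0) * (tf n f - tf n f') ^ 2 := by
    rw [← Finset.sum_add_distrib, ← Finset.sum_add_distrib, ← Finset.sum_add_distrib]
    refine Finset.sum_congr rfl fun f' _ => ?_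
    unfold m
    ring
  rw [h5]
  linarith

open Classical in
lemma boundary_le (f : Face n) :
    b f * tf n f ^ 2 ≤ 2 * (if (f.1 : ℕ) = 0 ∨ (f.1 : ℕ) + 1 = n then Lg n else 0) := by
  have hi := f.2.1.2
  have hr := f.1.2
  have hT : ((f.1 : ℕ) = 0 ∨ (f.1 : ℕ) + 1 = n) → tf n f ^ 2 ≤ Lg n := by
    intro h
    have h1 : t n f.1 = 1 := by unfold t; omega
    rw [tf_eq, h1, Nat.cast_one, one_mul]
    exact log_sv_sq f
  by_cases hAB : InAB f
  · by_cases hE : IsEnd f
    · have h1 : sv n f = 1 := by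
        unfold sv
        have h2 : t n f.2.1 = 1 := by
          unfold IsEnd at hE
          unfold t
          omega
        have h3 : e n (col f) = 0 := by
          unfold InAB at hAB
          unfold e
          omega
        omega
      have h4 : tf n f = 0 := by rw [tf_eq, h1, Nat.cast_one, Real.log_one, mul_zero]
      rw [h4]
      have : 0 ≤ (if (f.1 : ℕ) = 0 ∨ (f.1 : ℕ) + 1 = n then Lg n else 0) := by
        split_ifs <;> simp [Lg_nonneg]
      linarith
    · unfold IsEnd at hE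
      push Not at hE
      have h1 : b f = (if (f.1 : ℕ) = 0 then 1 else 0) + (if (f.1 : ℕ) + 1 = n then 1 else 0) := by
        unfold b
        rw [if_pos hAB, if_neg hE.1, if_neg hE.2]
        ring
      rw [h1]
      have h2 := sq_nonneg (tf n f)
      have h3 := Lg_nonneg (n := n)
      by_cases h4 : (f.1 : ℕ) = 0 ∨ (f.1 : ℕ) + 1 = n
      · have h5 := hT h4
        rw [if_pos h4]
        split_ifs <;> linarith
      · rw [if_neg h4]
        push Not at h4
        rw [if_neg h4.1, if_neg h4.2]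
        linarith
  · have h1 : b f = (if row f = 0 then 1 else 0) + (if row f + 1 = n * n then 1 else 0) := by
      unfold b
      rw [if_neg hAB]
    rw [h1]
    have h2 := sq_nonneg (tf n f)
    have h3 := Lg_nonneg (n := n)
    by_cases h4 : (f.1 : ℕ) = 0 ∨ (f.1 : ℕ) + 1 = n
    · have h5 := hT h4
      rw [if_pos h4]
      split_ifs <;> linarith
    · rw [if_neg h4]
      push Not at h4
      have h5 : row f ≠ 0 := by
        unfold row
        have : 0 < (f.1 : ℕ) * n := Nat.mul_pos (by omega) (by omega)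
        omega
      have h6 : row f + 1 ≠ n * n := by
        unfold row
        have h7 : ((f.1 : ℕ) + 2) * n ≤ n * n := Nat.mul_le_mul_right _ (by omega)
        have h8 : ((f.1 : ℕ) + 2) * n = f.1 * n + 2 * n := by ring
        omega
      rw [if_neg h5, if_neg h6]
      linarith

end local_bounds

/-! ### sums -/

open Classical in
lemma sum_ends (n : ℕ) (x : ℝ) (hx : 0 ≤ x) :
    ∑ i : Fin n, (if (i : ℕ) = 0 ∨ (i : ℕ) + 1 = n then x else 0) ≤ 2 * x := by
  have h2 : (Finset.univ.filter (fun i : Fin n => (i : ℕ) = 0 ∨ (i : ℕ) + 1 = n)).card ≤ 2 := by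
    rw [← Finset.card_image_of_injective _ Fin.val_injective]
    refine (Finset.card_le_card (t := {0, n - 1}) ?_).trans Finset.card_le_two
    intro y hy
    obtain ⟨a, ha, rfl⟩ := Finset.mem_image.mp hy
    have h4 : (a : ℕ) = 0 ∨ (a : ℕ) + 1 = n := by simpa using ha
    rw [Finset.mem_insert, Finset.mem_singleton]
    omega
  rw [← Finset.sum_filter, Finset.sum_const, nsmul_eq_mul]
  gcongr
  exact_mod_cast h2

/-- the summand -/
noncomputable def hh (k : ℕ) : ℝ := 1 / ((k : ℝ) + 1) ^ 2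

lemma hh_nonneg (k : ℕ) : 0 ≤ hh k := by unfold hh; positivity

lemma inner_sum (i N : ℕ) :
    ∑ k ∈ Finset.range N, hh (i + k) ≤ 2 * (1 / ((i : ℝ) + 1) - 1 / ((i : ℝ) + N + 1)) := by
  induction N with
  | zero => simp
  | succ N ih =>
    rw [Finset.sum_range_succ]
    have h1 : hh (i + N) ≤ 2 * (1 / ((i : ℝ) + N + 1) - 1 / ((i : ℝ) + (N + 1 : ℕ) + 1)) := by
      unfold hh
      push_cast
      have hx : (1 : ℝ) ≤ (i : ℝ) + N + 1 := by
        have h3 : (0 : ℝ) ≤ i := Nat.cast_nonneg _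
        have h4 : (0 : ℝ) ≤ N := Nat.cast_nonneg _
        linarith
      set x : ℝ := (i : ℝ) + N + 1 with hxdef
      have h2 : (i : ℝ) + (N + 1) + 1 = x + 1 := by rw [hxdef]; ring
      rw [h2]
      have h3 : 2 * (1 / x - 1 / (x + 1)) = 2 / (x * (x + 1)) := by
        field_simp
        ring
      rw [h3, div_le_div_iff₀ (by positivity) (by positivity)]
      nlinarith
    linarith

lemma harm (n : ℕ) :
    ∑ i ∈ Finset.range n, 1 / ((i : ℝ) + 1) ≤ 1 + Real.log n := by
  have h1 := harmonic_le_one_add_log n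
  have h2 : ((harmonic n : ℚ) : ℝ) = ∑ i ∈ Finset.range n, 1 / ((i : ℝ) + 1) := by
    unfold harmonic
    push_cast
    refine Finset.sum_congr rfl fun i _ => ?_
    rw [one_div]
  rw [← h2]
  exact h1

lemma double_sum (n : ℕ) :
    ∑ i ∈ Finset.range n, ∑ k ∈ Finset.range (n + 2), hh (i + k) ≤ 2 * (1 + Real.log n) := by
  calc _ ≤ ∑ i ∈ Finset.range n, 2 * (1 / ((i : ℝ) + 1)) := by
        refine Finset.sum_le_sum fun i _ => (inner_sum i (n + 2)).trans ?_
        have : 0 ≤ 1 / ((i : ℝ) + (n + 2 : ℕ) + 1) := by positivity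
        linarith
    _ = 2 * ∑ i ∈ Finset.range n, 1 / ((i : ℝ) + 1) := by rw [Finset.mul_sum]
    _ ≤ _ := by
        have := harm n
        linarith

lemma inv_le (n i k : ℕ) (hi : i < n) (hk : k < n + 2) :
    1 / ((t n i + e n k : ℕ) : ℝ) ^ 2 ≤ hh (i + k) + hh ((n - 1 - i) + k) +
      hh (i + (n + 2 - 1 - k)) + hh ((n - 1 - i) + (n + 2 - 1 - k)) := by
  have h0 := hh_nonneg (i + k)
  have h1 := hh_nonneg ((n - 1 - i) + k)
  have h2 := hh_nonneg (i + (n + 2 - 1 - k))
  have h3 := hh_nonneg ((n - 1 - i) + (n + 2 - 1 - k))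
  have key : ∀ c : ℕ, t n i + e n k = c + 1 → 1 / ((t n i + e n k : ℕ) : ℝ) ^ 2 = hh c := by
    intro c hc
    rw [hc]
    unfold hh
    push_cast
    rfl
  have h4 : t n i + e n k = i + k + 1 ∨ t n i + e n k = (n - 1 - i) + k + 1 ∨
      t n i + e n k = i + (n + 2 - 1 - k) + 1 ∨
      t n i + e n k = (n - 1 - i) + (n + 2 - 1 - k) + 1 := by
    unfold t e
    omega
  rcases h4 with h | h | h | h <;> rw [key _ h] <;> linarith

lemma Q_le (n : ℕ) :
    ∑ i : Fin n, ∑ k : Fin (n + 2), 1 / ((t n i + e n k : ℕ) : ℝ) ^ 2 ≤ 8 * (1 + Real.log n) := by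
  have h1 : ∑ i : Fin n, ∑ k : Fin (n + 2), 1 / ((t n i + e n k : ℕ) : ℝ) ^ 2 ≤
      ∑ i : Fin n, ∑ k : Fin (n + 2), (hh (i + k) + hh ((n - 1 - i) + k) +
      hh (i + (n + 2 - 1 - k)) + hh ((n - 1 - i) + (n + 2 - 1 - k))) :=
    Finset.sum_le_sum fun i _ => Finset.sum_le_sum fun k _ => inv_le n i k i.2 k.2
  refine h1.trans ?_
  have h2 : ∀ F : ℕ → ℕ → ℝ, ∑ i : Fin n, ∑ k : Fin (n + 2), F i k =
      ∑ i ∈ Finset.range n, ∑ k ∈ Finset.range (n + 2), F i k := by
    intro F
    rw [← Fin.sum_univ_eq_sum_range (fun i => ∑ k ∈ Finset.range (n + 2), F i k) n]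
    refine Finset.sum_congr rfl fun i _ => ?_
    rw [← Fin.sum_univ_eq_sum_range (fun k => F i k) (n + 2)]
  rw [h2 (fun i k => hh (i + k) + hh ((n - 1 - i) + k) +
      hh (i + (n + 2 - 1 - k)) + hh ((n - 1 - i) + (n + 2 - 1 - k)))]
  simp only [Finset.sum_add_distrib]
  have hd := double_sum n
  have r1 : ∑ i ∈ Finset.range n, ∑ k ∈ Finset.range (n + 2), hh ((n - 1 - i) + k) =
      ∑ i ∈ Finset.range n, ∑ k ∈ Finset.range (n + 2), hh (i + k) :=
    Finset.sum_range_reflect (fun i => ∑ k ∈ Finset.range (n + 2), hh (i + k)) n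
  have r2 : ∀ i : ℕ, ∑ k ∈ Finset.range (n + 2), hh (i + (n + 2 - 1 - k)) =
      ∑ k ∈ Finset.range (n + 2), hh (i + k) := fun i =>
    Finset.sum_range_reflect (fun k => hh (i + k)) (n + 2)
  have r3 : ∑ i ∈ Finset.range n, ∑ k ∈ Finset.range (n + 2), hh (i + (n + 2 - 1 - k)) =
      ∑ i ∈ Finset.range n, ∑ k ∈ Finset.range (n + 2), hh (i + k) :=
    Finset.sum_congr rfl fun i _ => r2 i
  have r4 : ∑ i ∈ Finset.range n, ∑ k ∈ Finset.range (n + 2),
      hh ((n - 1 - i) + (n + 2 - 1 - k)) =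
      ∑ i ∈ Finset.range n, ∑ k ∈ Finset.range (n + 2), hh (i + k) := by
    rw [← r1]
    exact Finset.sum_congr rfl fun i _ => r2 (n - 1 - i)
  rw [r1, r3, r4]
  linarith

/-- the sum of the squares of the strip weights -/
noncomputable def R (n : ℕ) : ℝ := ∑ r : Fin n, (t n r : ℝ) ^ 2

lemma R_nonneg (n : ℕ) : 0 ≤ R n := Finset.sum_nonneg fun _ _ => by positivity

lemma sum_D (n : ℕ) : ∑ f : Face n, D f ≤ 32 * R n * (1 + Real.log n) := by
  have h1 : ∑ f : Face n, D f = 4 * R n *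
      ∑ i : Fin n, ∑ k : Fin (n + 2), 1 / ((t n i + e n k : ℕ) : ℝ) ^ 2 := by
    have h0 : ∀ r : Fin n, ∑ y : Fin n × Fin (n + 2), D ((r, y) : Face n) = (t n r : ℝ) ^ 2 *
        (4 * ∑ i : Fin n, ∑ k : Fin (n + 2), 1 / ((t n i + e n k : ℕ) : ℝ) ^ 2) := by
      intro r
      rw [Fintype.sum_prod_type, Finset.mul_sum, Finset.mul_sum]
      refine Finset.sum_congr rfl fun i _ => ?_
      rw [Finset.mul_sum, Finset.mul_sum]
      refine Finset.sum_congr rfl fun k _ => ?_
      show (t n r : ℝ) ^ 2 * (4 / ((t n i + e n k : ℕ) : ℝ) ^ 2) = _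
      ring
    rw [Fintype.sum_prod_type, Finset.sum_congr rfl fun r _ => h0 r, ← Finset.sum_mul]
    unfold R
    ring
  rw [h1]
  have h2 := Q_le n
  have h3 := R_nonneg n
  calc _ ≤ 4 * R n * (8 * (1 + Real.log n)) := by gcongr
    _ = _ := by ring

open Classical in
lemma sum_end (n : ℕ) : ∑ f : Face n, (if IsEnd f then Lg n else 0) ≤ n * (2 * ((n + 2) * Lg n)) := by
  rw [Fintype.sum_prod_type]
  calc _ ≤ ∑ r : Fin n, 2 * (((n : ℝ) + 2) * Lg n) := by
        refine Finset.sum_le_sum fun r _ => ?_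
        rw [Fintype.sum_prod_type]
        have h1 : ∀ i : Fin n, ∑ k : Fin (n + 2), (if IsEnd ((r, i, k) : Face n) then Lg n else 0) =
            (if (i : ℕ) = 0 ∨ (i : ℕ) + 1 = n then ((n : ℝ) + 2) * Lg n else 0) := by
          intro i
          have h2 : ∀ k : Fin (n + 2), IsEnd ((r, i, k) : Face n) ↔
            ((i : ℕ) = 0 ∨ (i : ℕ) + 1 = n) := fun k => Iff.rfl
          by_cases h3 : (i : ℕ) = 0 ∨ (i : ℕ) + 1 = n
          · rw [if_pos h3]
            simp only [h2, if_pos h3]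
            rw [Finset.sum_const, Finset.card_univ, Fintype.card_fin, nsmul_eq_mul]
            push_cast
            ring
          · rw [if_neg h3]
            simp only [h2, if_neg h3, Finset.sum_const_zero]
        rw [Finset.sum_congr rfl fun i _ => h1 i]
        exact sum_ends n _ (mul_nonneg (by positivity) Lg_nonneg)
    _ = _ := by
        rw [Finset.sum_const, Finset.card_univ, Fintype.card_fin, nsmul_eq_mul]

open Classical in
lemma sum_AB (n : ℕ) : ∑ f : Face n, (if InAB f then Lg n else 0) ≤ n * (n * (2 * Lg n)) := by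
  rw [Fintype.sum_prod_type]
  calc _ ≤ ∑ r : Fin n, (n : ℝ) * (2 * Lg n) := by
        refine Finset.sum_le_sum fun r _ => ?_
        rw [Fintype.sum_prod_type]
        calc _ ≤ ∑ i : Fin n, 2 * Lg n := by
              refine Finset.sum_le_sum fun i _ => ?_
              have h1 : ∀ k : Fin (n + 2), (if InAB ((r, i, k) : Face n) then Lg n else 0) =
                  (if (k : ℕ) = 0 ∨ (k : ℕ) + 1 = n + 2 then Lg n else 0) := by
                intro k
                have h2 : InAB ((r, i, k) : Face n) ↔ ((k : ℕ) = 0 ∨ (k : ℕ) + 1 = n + 2) := by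
                  show ((k : ℕ) = 0 ∨ (k : ℕ) = n + 1) ↔ _
                  omega
                simp only [h2]
              rw [Finset.sum_congr rfl fun k _ => h1 k]
              exact sum_ends (n + 2) _ Lg_nonneg
          _ = _ := by rw [Finset.sum_const, Finset.card_univ, Fintype.card_fin, nsmul_eq_mul]
    _ = _ := by rw [Finset.sum_const, Finset.card_univ, Fintype.card_fin, nsmul_eq_mul]

open Classical in
lemma sum_rend (n : ℕ) :
    ∑ f : Face n, (if (f.1 : ℕ) = 0 ∨ (f.1 : ℕ) + 1 = n then Lg n else 0) ≤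
      2 * (n * ((n + 2) * Lg n)) := by
  rw [Fintype.sum_prod_type]
  have h1 : ∀ r : Fin n, ∑ y : Fin n × Fin (n + 2),
      (if (((r, y) : Face n).1 : ℕ) = 0 ∨ (((r, y) : Face n).1 : ℕ) + 1 = n then Lg n else 0) =
      (if (r : ℕ) = 0 ∨ (r : ℕ) + 1 = n then (n : ℝ) * ((n + 2) * Lg n) else 0) := by
    intro r
    show ∑ y : Fin n × Fin (n + 2), (if (r : ℕ) = 0 ∨ (r : ℕ) + 1 = n then Lg n else 0) = _
    rw [Finset.sum_const, Finset.card_univ, Fintype.card_prod, Fintype.card_fin, Fintype.card_fin,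
      nsmul_eq_mul]
    split_ifs
    · push_cast
      ring
    · ring
  rw [Finset.sum_congr rfl fun r _ => h1 r]
  exact sum_ends n _ (mul_nonneg (by positivity) (mul_nonneg (by positivity) Lg_nonneg))

theorem energy_le (n : ℕ) :
    energy (tf n) ≤ 96 * R n * (1 + Real.log n) + (8 * n ^ 2 + 12 * n) * Lg n := by
  classical
  have h1 : ∑ f : Face n, ∑ f', m f f' * (tf n f - tf n f') ^ 2 ≤
      6 * ∑ f : Face n, D f + 2 * ∑ f : Face n, (if IsEnd f then Lg n else 0) +
        2 * ∑ f : Face n, (if InAB f then Lg n else 0) := by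
    rw [Finset.mul_sum, Finset.mul_sum, Finset.mul_sum, ← Finset.sum_add_distrib,
      ← Finset.sum_add_distrib]
    exact Finset.sum_le_sum fun f _ => local_sum f
  have h2 : ∑ f : Face n, b f * tf n f ^ 2 ≤
      2 * ∑ f : Face n, (if (f.1 : ℕ) = 0 ∨ (f.1 : ℕ) + 1 = n then Lg n else 0) := by
    rw [Finset.mul_sum]
    exact Finset.sum_le_sum fun f _ => boundary_le f
  have h3 := sum_D n
  have h4 := sum_end n
  have h5 := sum_AB n
  have h6 := sum_rend n
  unfold energy
  nlinarith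

/-! ### lower bounds -/

open Classical in
lemma card_mid (n : ℕ) :
    n ≤ 2 * (Finset.univ.filter (fun i : Fin n => n ≤ 4 * t n i)).card := by
  rw [← Finset.card_image_of_injective _ Fin.val_injective]
  have h1 : Finset.Ico (n / 4) (n - n / 4) ⊆
      (Finset.univ.filter (fun i : Fin n => n ≤ 4 * t n i)).image Fin.val := by
    intro x hx
    rw [Finset.mem_Ico] at hx
    have hx' : x < n := by omega
    refine Finset.mem_image.mpr ⟨⟨x, hx'⟩, ?_, rfl⟩
    rw [Finset.mem_filter]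
    refine ⟨Finset.mem_univ _, ?_⟩
    show n ≤ 4 * min (x + 1) (n - x)
    omega
  have h2 := Finset.card_le_card h1
  rw [Nat.card_Ico] at h2
  omega

lemma R_ge (n : ℕ) : (n : ℝ) ^ 3 ≤ 32 * R n := by
  classical
  have h1 : ∑ r ∈ Finset.univ.filter (fun i : Fin n => n ≤ 4 * t n i), ((n : ℝ) / 4) ^ 2 ≤ R n := by
    refine (Finset.sum_le_sum fun r hr => ?_).trans
      (Finset.sum_le_sum_of_subset_of_nonneg (Finset.filter_subset _ _) fun _ _ _ => by positivity)
    have h2 : n ≤ 4 * t n r := (Finset.mem_filter.mp hr).2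
    have h3 : (n : ℝ) ≤ 4 * (t n r : ℝ) := by exact_mod_cast h2
    have h4 : (n : ℝ) / 4 ≤ (t n r : ℝ) := by linarith
    gcongr
  rw [Finset.sum_const, nsmul_eq_mul] at h1
  have h2 : (n : ℝ) ≤ 2 * ((Finset.univ.filter (fun i : Fin n => n ≤ 4 * t n i)).card : ℝ) := by
    exact_mod_cast card_mid n
  have h3 : (0 : ℝ) ≤ ((n : ℝ) / 4) ^ 2 := by positivity
  nlinarith

lemma log_quarter {n : ℕ} (hn : 16 ≤ n) {s : ℕ} (hs : n ≤ 4 * s) :
    Real.log n / 2 ≤ Real.log s := by
  have hn0 : (16 : ℝ) ≤ n := by exact_mod_cast hn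
  have hs' : (n : ℝ) ≤ 4 * s := by exact_mod_cast hs
  have h1 : Real.log n ≤ Real.log ((s : ℝ) ^ 2) := by
    apply Real.log_le_log (by linarith)
    nlinarith
  rw [Real.log_pow] at h1
  push_cast at h1
  linarith

theorem mass_ge (n : ℕ) (hn : 16 ≤ n) :
    R n * (n : ℝ) ^ 2 * Real.log n ^ 2 ≤ 8 * ∑ f : Face n, tf n f ^ 2 := by
  classical
  have hlog : 0 ≤ Real.log n := Real.log_nonneg (by exact_mod_cast (by omega : 1 ≤ n))
  have h1 : ∑ f : Face n, tf n f ^ 2 = R n * ∑ i : Fin n, ∑ k : Fin (n + 2),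
      Real.log ((t n i + e n k : ℕ) : ℝ) ^ 2 := by
    rw [Fintype.sum_prod_type]
    unfold R
    rw [Finset.sum_mul]
    refine Finset.sum_congr rfl fun r _ => ?_
    rw [Fintype.sum_prod_type, Finset.mul_sum]
    refine Finset.sum_congr rfl fun i _ => ?_
    rw [Finset.mul_sum]
    refine Finset.sum_congr rfl fun k _ => ?_
    show ((t n r : ℝ) * Real.log ((t n i + e n k : ℕ) : ℝ)) ^ 2 = _
    ring
  have h2 : ∑ i ∈ Finset.univ.filter (fun i : Fin n => n ≤ 4 * t n i),
      ((n : ℝ) + 2) * (Real.log n / 2) ^ 2 ≤ ∑ i : Fin n, ∑ k : Fin (n + 2),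
      Real.log ((t n i + e n k : ℕ) : ℝ) ^ 2 := by
    refine (Finset.sum_le_sum fun i hi => ?_).trans
      (Finset.sum_le_sum_of_subset_of_nonneg (Finset.filter_subset _ _) fun _ _ _ =>
        Finset.sum_nonneg fun _ _ => by positivity)
    have h3 : n ≤ 4 * t n i := (Finset.mem_filter.mp hi).2
    calc ((n : ℝ) + 2) * (Real.log n / 2) ^ 2 = ∑ k : Fin (n + 2), (Real.log n / 2) ^ 2 := by
          rw [Finset.sum_const, Finset.card_univ, Fintype.card_fin, nsmul_eq_mul]
          push_cast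
          ring
      _ ≤ _ := by
          refine Finset.sum_le_sum fun k _ => ?_
          have h4 := log_quarter hn (s := t n i + e n k) (by omega)
          gcongr
  rw [Finset.sum_const, nsmul_eq_mul] at h2
  have h5 : (n : ℝ) ≤ 2 * ((Finset.univ.filter (fun i : Fin n => n ≤ 4 * t n i)).card : ℝ) := by
    exact_mod_cast card_mid n
  rw [h1]
  have hR := R_nonneg n
  have hn0 : (0 : ℝ) ≤ n := Nat.cast_nonneg _
  have h6 : (n : ℝ) ^ 2 * Real.log n ^ 2 ≤ 8 * ∑ i : Fin n, ∑ k : Fin (n + 2),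
      Real.log ((t n i + e n k : ℕ) : ℝ) ^ 2 := by
    refine le_trans ?_ (mul_le_mul_of_nonneg_left h2 (by norm_num))
    have h7 : 0 ≤ (Real.log n) ^ 2 := sq_nonneg _
    calc (n : ℝ) ^ 2 * Real.log n ^ 2 ≤
        (2 * ((Finset.univ.filter (fun i : Fin n => n ≤ 4 * t n i)).card : ℝ)) * (n + 2) *
          Real.log n ^ 2 := by
          gcongr
          nlinarith
      _ = _ := by ring
  calc R n * (n : ℝ) ^ 2 * Real.log n ^ 2 = R n * ((n : ℝ) ^ 2 * Real.log n ^ 2) := by ring
    _ ≤ R n * (8 * ∑ i : Fin n, ∑ k : Fin (n + 2),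
      Real.log ((t n i + e n k : ℕ) : ℝ) ^ 2) := by gcongr
    _ = _ := by ring

/-! ### the conclusion -/

lemma m_nonneg {n : ℕ} (f f' : Face n) : 0 ≤ m f f' := by
  unfold m
  positivity

lemma b_nonneg {n : ℕ} (f : Face n) : 0 ≤ b f := by
  unfold b
  positivity

lemma energy_nonneg {n : ℕ} (g : Face n → ℝ) : 0 ≤ energy g := by
  unfold energy
  have h1 : 0 ≤ ∑ f, ∑ f', m f f' * (g f - g f') ^ 2 :=
    Finset.sum_nonneg fun f _ => Finset.sum_nonneg fun f' _ =>
      mul_nonneg (m_nonneg f f') (sq_nonneg _)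
  have h2 : 0 ≤ ∑ f, b f * g f ^ 2 :=
    Finset.sum_nonneg fun f _ => mul_nonneg (b_nonneg f) (sq_nonneg _)
  positivity

lemma bdd (n : ℕ) : BddBelow {x : ℝ | ∃ g : Face n → ℝ, g ≠ 0 ∧ x = energy g / ∑ f, g f ^ 2} := by
  refine ⟨0, ?_⟩
  rintro x ⟨g, _, rfl⟩
  exact div_nonneg (energy_nonneg g) (Finset.sum_nonneg fun _ _ => sq_nonneg _)

lemma mu_nonneg (n : ℕ) : 0 ≤ mu n := by
  apply Real.sInf_nonneg
  rintro x ⟨g, _, rfl⟩
  exact div_nonneg (energy_nonneg g) (Finset.sum_nonneg fun _ _ => sq_nonneg _)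

theorem mu_le (n : ℕ) (hn : 16 ≤ n) : mu n ≤ 10752 / ((n : ℝ) ^ 2 * Real.log n) := by
  have hn0 : (16 : ℝ) ≤ n := by exact_mod_cast hn
  have hE := energy_le n
  have hM := mass_ge n hn
  have hR := R_ge n
  set N : ℝ := (n : ℝ) with hN
  set L : ℝ := Real.log N with hL
  set M : ℝ := ∑ f : Face n, tf n f ^ 2 with hMdef
  have hL1 : 1 ≤ L := by
    rw [hL, Real.le_log_iff_exp_le (by linarith)]
    have := Real.exp_one_lt_d9
    linarith
  have hLN : L ≤ N := (Real.log_le_sub_one_of_pos (by linarith)).trans (by linarith)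
  have hLg : Lg n ≤ 4 * L ^ 2 := by
    have h1 : Real.log (N + 1) ≤ 2 * L := by
      have h2 : Real.log (N + 1) ≤ Real.log (N ^ 2) := by
        apply Real.log_le_log (by linarith)
        nlinarith
      rw [Real.log_pow] at h2
      push_cast at h2
      exact h2
    have h3 : 0 ≤ Real.log (N + 1) := Real.log_nonneg (by linarith)
    unfold Lg
    calc Real.log (N + 1) ^ 2 ≤ (2 * L) ^ 2 := by gcongr
      _ = 4 * L ^ 2 := by ring
  have hR0 : 0 < R n := by
    have : 0 < N ^ 3 := by positivity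
    linarith
  have hM0 : 0 < M := by
    have : 0 < R n * N ^ 2 * L ^ 2 := by positivity
    linarith
  have hne : tf n ≠ 0 := by
    intro h0
    have : M = 0 := by
      rw [hMdef, h0]
      simp
    linarith
  have h1 : energy (tf n) ≤ 192 * R n * L + 36 * N ^ 2 * L ^ 2 := by
    have h2 : 96 * R n * (1 + L) ≤ 192 * R n * L := by nlinarith
    have h3 : (8 * N ^ 2 + 12 * N) * Lg n ≤ (9 * N ^ 2) * (4 * L ^ 2) := by
      have h4 : 8 * N ^ 2 + 12 * N ≤ 9 * N ^ 2 := by nlinarith
      have h5 : 0 ≤ Lg n := Lg_nonneg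
      calc _ ≤ (9 * N ^ 2) * Lg n := by gcongr
        _ ≤ _ := by gcongr
    linarith
  have h2 : mu n ≤ energy (tf n) / M := csInf_le (bdd n) ⟨tf n, hne, rfl⟩
  refine h2.trans ?_
  rw [div_le_div_iff₀ hM0 (by positivity)]
  have h3 : energy (tf n) * (N ^ 2 * L) ≤ (192 * R n * L + 36 * N ^ 2 * L ^ 2) * (N ^ 2 * L) := by
    gcongr
  have h4 : N ^ 2 * L ≤ 32 * R n := by
    refine le_trans ?_ hR
    calc N ^ 2 * L ≤ N ^ 2 * N := by gcongr
      _ = N ^ 3 := by ring
  have h5 : 36 * (N ^ 2 * L ^ 2) * (N ^ 2 * L) ≤ 36 * (N ^ 2 * L ^ 2) * (32 * R n) := by gcongr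
  nlinarith

theorem tendsto_mu : Tendsto (fun n : ℕ => (n : ℝ) ^ 2 * mu n) atTop (𝓝 0) := by
  have h1 : Tendsto (fun n : ℕ => 10752 / Real.log (n : ℝ)) atTop (𝓝 0) :=
    (Real.tendsto_log_atTop.comp tendsto_natCast_atTop_atTop).const_div_atTop _
  refine squeeze_zero' (Eventually.of_forall fun n => mul_nonneg (by positivity) (mu_nonneg n)) ?_ h1
  filter_upwards [eventually_ge_atTop 16] with n hn
  have hn0 : (16 : ℝ) ≤ n := by exact_mod_cast hn
  have hL : 0 < Real.log n := Real.log_pos (by linarith)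
  calc (n : ℝ) ^ 2 * mu n ≤ (n : ℝ) ^ 2 * (10752 / ((n : ℝ) ^ 2 * Real.log n)) := by
        gcongr
        exact mu_le n hn
    _ = 10752 / Real.log n := by
        field_simp

/-- For every `n ≥ 16` the infimum `mu n` is at most `10752 / (n² log n)`. Hence `n² mu n` tends
to zero, and there is no positive lower bound `c / n²`. -/
theorem result :
    (∀ n : ℕ, 16 ≤ n → mu n ≤ 10752 / ((n : ℝ) ^ 2 * Real.log n)) ∧
    Tendsto (fun n : ℕ => (n : ℝ) ^ 2 * mu n) atTop (𝓝 0) ∧
    ¬ ∃ c : ℝ, 0 < c ∧ ∀ᶠ n : ℕ in atTop, c / (n : ℝ) ^ 2 ≤ mu n := by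
  refine ⟨mu_le, tendsto_mu, ?_⟩
  rintro ⟨c, hc, h⟩
  have h1 := tendsto_mu.eventually (gt_mem_nhds hc)
  obtain ⟨n, h2, h3, h4⟩ := (h1.and (h.and (eventually_ge_atTop 16))).exists
  have hn0 : (16 : ℝ) ≤ n := by exact_mod_cast h4
  have h5 : c ≤ (n : ℝ) ^ 2 * mu n := by
    rw [div_le_iff₀ (by positivity)] at h3
    linarith
  linarith

end Pool.Agent.Results.MP_442c46_al.LogarithmicGap
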